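import Mathlib
import Pool.Agent.NPC.Defs

/-!
Unimodular vertex cones of `0`-`1` systems.
-/

namespace Pool.Agent.H911Z.UV

open Pool.Agent.NPC

/-- The polyhedron `{x : A x ≤ b, x ≥ 0}` of a `0`-`1` matrix `A` (entry `true` is `1`). -/
def polyhedron {m n : ℕ} (A : Matrix (Fin m) (Fin n) Bool) (b : Fin m → ℚ) : Set (Fin n → ℝ) :=
  {x | (∀ i, ∑ j, (if A i j = true then x j else 0) ≤ (b i : ℝ)) ∧ ∀ j, 0 ≤ x j}

/-- The primitive integer outer normal vectors of the facets of `P ⊆ ℝ^n` that contain the point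
`u`: integer vectors `a` with greatest common divisor `1` such that `a · x ≤ a · u` on `P` and the
face `{x ∈ P : a · x = a · u}` has dimension `n - 1`. -/
def facetNormals {n : ℕ} (P : Set (Fin n → ℝ)) (u : Fin n → ℝ) : Set (Fin n → ℤ) :=
  {a | Finset.univ.gcd a = 1 ∧ (∀ x ∈ P, ∑ j, (a j : ℝ) * x j ≤ ∑ j, (a j : ℝ) * u j) ∧
    Module.finrank ℝ
      (vectorSpan ℝ {x | x ∈ P ∧ ∑ j, (a j : ℝ) * x j = ∑ j, (a j : ℝ) * u j}) + 1 = n}

/-- At every vertex `u` of the polyhedron the primitive normal vectors of the facets through `u`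
are the rows of an `n × n` matrix of determinant `1` or `-1`. -/
def Unimodular {m n : ℕ} (A : Matrix (Fin m) (Fin n) Bool) (b : Fin m → ℚ) : Prop :=
  ∀ u ∈ Set.extremePoints ℝ (polyhedron A b), ∃ M : Matrix (Fin n) (Fin n) ℤ,
    Set.range (fun i => M i) = facetNormals (polyhedron A b) u ∧ |M.det| = 1

/-- The code of an instance: the number of columns, the rows of `A`, and `b` (in binary). -/
def enc {m n : ℕ} (A : Matrix (Fin m) (Fin n) Bool) (b : Fin m → ℚ) : List Bool :=
  bits (n, List.ofFn (fun i => List.ofFn (fun j => A i j)), List.ofFn b)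

end Pool.Agent.H911Z.UV
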