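import Mathlib
import Pool.Agent.H911Z.UV.Defs

namespace Pool.Agent.H911Z.UV

variable {n : ℕ}

/-- The linear form of an integer vector. -/
noncomputable def form (a : Fin n → ℤ) : (Fin n → ℝ) →ₗ[ℝ] ℝ where
  toFun x := ∑ j, (a j : ℝ) * x j
  map_add' x y := by simp [mul_add, Finset.sum_add_distrib]
  map_smul' c x := by
    simp only [Pi.smul_apply, smul_eq_mul, RingHom.id_apply, Finset.mul_sum]
    exact Finset.sum_congr rfl (fun j _ => by ring)

theorem form_apply (a : Fin n → ℤ) (x : Fin n → ℝ) : form a x = ∑ j, (a j : ℝ) * x j := rfl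

theorem mem_facetNormals (P : Set (Fin n → ℝ)) (u : Fin n → ℝ) (a : Fin n → ℤ) :
    a ∈ facetNormals P u ↔ Finset.univ.gcd a = 1 ∧ (∀ x ∈ P, form a x ≤ form a u) ∧
      Module.finrank ℝ (vectorSpan ℝ {x | x ∈ P ∧ form a x = form a u}) + 1 = n := Iff.rfl

theorem span_le_ker (F : Set (Fin n → ℝ)) (f : (Fin n → ℝ) →ₗ[ℝ] ℝ) (β : ℝ)
    (h : ∀ x ∈ F, f x = β) : vectorSpan ℝ F ≤ LinearMap.ker f := by
  rw [vectorSpan_def, Submodule.span_le]
  rintro _ ⟨x, hx, y, hy, rfl⟩
  simp [h x hx, h y hy]

theorem ker_rank (f : (Fin n → ℝ) →ₗ[ℝ] ℝ) (hf : f ≠ 0) :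
    Module.finrank ℝ (LinearMap.ker f) + 1 = n := by
  have := Module.Dual.finrank_ker_add_one_of_ne_zero (f := f) hf
  simpa using this

theorem face_rank (F : Set (Fin n → ℝ)) (f : (Fin n → ℝ) →ₗ[ℝ] ℝ) (hf : f ≠ 0) (β : ℝ)
    (h : ∀ x ∈ F, f x = β) (h' : ∀ y, f y = 0 → y ∈ vectorSpan ℝ F) :
    Module.finrank ℝ (vectorSpan ℝ F) + 1 = n := by
  have : vectorSpan ℝ F = LinearMap.ker f := le_antisymm (span_le_ker F f β h) h'
  rw [this]
  exact ker_rank f hf

theorem dir_mem {F : Set (Fin n → ℝ)} {p y : Fin n → ℝ} {δ : ℝ} (hδ : δ ≠ 0) (hp : p ∈ F)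
    (hq : p + δ • y ∈ F) : y ∈ vectorSpan ℝ F := by
  have h1 := vsub_mem_vectorSpan ℝ hq hp
  have h2 : (p + δ • y) -ᵥ p = δ • y := by simp
  rw [h2] at h1
  have h3 := (vectorSpan ℝ F).smul_mem δ⁻¹ h1
  rwa [smul_smul, inv_mul_cancel₀ hδ, one_smul] at h3

theorem gcd_one_of_sum (a b : Fin n → ℤ) (h : ∑ k, a k * b k = 1) : Finset.univ.gcd a = 1 := by
  have h1 : Finset.univ.gcd a ∣ 1 := by
    rw [← h]
    exact Finset.dvd_sum (fun k _ => Dvd.dvd.mul_right (Finset.gcd_dvd (Finset.mem_univ k)) _)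
  rw [← Finset.normalize_gcd]
  exact normalize_eq_one.mpr (isUnit_of_dvd_one h1)

/-- The columns of an integer matrix as real vectors. -/
def col (N : Matrix (Fin n) (Fin n) ℤ) (j : Fin n) : Fin n → ℝ := fun k => (N k j : ℝ)

theorem form_col (a : Fin n → ℤ) (N : Matrix (Fin n) (Fin n) ℤ) (j : Fin n) :
    form a (col N j) = ((∑ k, a k * N k j : ℤ) : ℝ) := by
  rw [form_apply]
  push_cast
  rfl

theorem local_cone (P : Set (Fin n → ℝ)) (u : Fin n → ℝ) (hu : u ∈ P)
    (M N : Matrix (Fin n) (Fin n) ℤ) (hMN : M * N = 1)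
    (hval : ∀ i, ∀ x ∈ P, form (M i) x ≤ form (M i) u)
    (hin : ∀ j, ∃ ε : ℝ, 0 < ε ∧ u + (-ε) • col N j ∈ P) :
    Set.range (fun i => M i) = facetNormals P u := by
  have hNM : N * M = 1 := mul_eq_one_comm.mp hMN
  have hent : ∀ i j, ∑ k, M i k * N k j = if i = j then 1 else 0 := by
    intro i j
    have := congrFun (congrFun hMN i) j
    rwa [Matrix.mul_apply, Matrix.one_apply] at this
  have hcol : ∀ i j, form (M i) (col N j) = if i = j then 1 else 0 := by
    intro i j
    rw [form_col, hent]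
    split_ifs <;> simp
  have hne : ∀ i, form (M i) ≠ 0 := by
    intro i h
    have := hcol i i
    rw [h] at this
    simp at this
  have hdec : ∀ y : Fin n → ℝ, y = ∑ j, form (M j) y • col N j := by
    intro y
    funext k
    simp only [Finset.sum_apply, Pi.smul_apply, smul_eq_mul, col, form_apply, Finset.sum_mul]
    rw [Finset.sum_comm]
    have : ∀ l, ∑ j, (M j l : ℝ) * y l * (N k j : ℝ) = if k = l then y l else 0 := by
      intro l
      have h1 := congrFun (congrFun hNM k) l
      rw [Matrix.mul_apply, Matrix.one_apply] at h1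
      have h2 : ∑ j, (M j l : ℝ) * y l * (N k j : ℝ) = ((∑ j, N k j * M j l : ℤ) : ℝ) * y l := by
        push_cast
        rw [Finset.sum_mul]
        exact Finset.sum_congr rfl (fun j _ => by ring)
      rw [h2, h1]
      split_ifs <;> simp
    rw [Finset.sum_congr rfl (fun l _ => this l)]
    simp
  ext a
  rw [mem_facetNormals]
  constructor
  · rintro ⟨i, rfl⟩
    refine ⟨gcd_one_of_sum (M i) (fun k => N k i) (by rw [hent]; simp), hval i, ?_⟩
    refine face_rank _ (form (M i)) (hne i) (form (M i) u) (fun x hx => hx.2) ?_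
    intro y hy
    rw [hdec y]
    refine Submodule.sum_mem _ (fun j _ => ?_)
    by_cases hij : j = i
    · rw [hij, hy, zero_smul]
      exact Submodule.zero_mem _
    · refine Submodule.smul_mem _ _ ?_
      obtain ⟨ε, hε, h1⟩ := hin j
      refine dir_mem (p := u) (δ := -ε) (by linarith) ⟨hu, rfl⟩ ⟨h1, ?_⟩
      rw [map_add, map_smul, hcol, if_neg (Ne.symm hij)]
      simp
  · rintro ⟨hg, hv, hr⟩
    set lam : Fin n → ℤ := fun j => ∑ k, a k * N k j with hlam
    have hl0 : ∀ j, 0 ≤ lam j := by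
      intro j
      obtain ⟨ε, hε, h1⟩ := hin j
      have h2 := hv _ h1
      rw [map_add, map_smul, form_col, smul_eq_mul] at h2
      have h3 : (0 : ℝ) ≤ ((lam j : ℤ) : ℝ) := by
        by_contra hc
        push Not at hc
        have : 0 < (-ε) * ((lam j : ℤ) : ℝ) := mul_pos_of_neg_of_neg (by linarith) hc
        linarith
      exact_mod_cast h3
    have hform : ∀ y, form a y = ∑ j, (lam j : ℝ) * form (M j) y := by
      intro y
      conv_lhs => rw [hdec y]
      rw [map_sum]
      refine Finset.sum_congr rfl (fun j _ => ?_)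
      rw [map_smul, form_col, smul_eq_mul, mul_comm]
    have ha : ∀ k, a k = ∑ j, lam j * M j k := by
      intro k
      have h1 := hform (Pi.single k 1)
      simp only [form_apply, Pi.single_apply, mul_ite, mul_one, mul_zero, Finset.sum_ite_eq',
        Finset.mem_univ, if_true] at h1
      exact_mod_cast h1
    have hface : ∀ j, lam j ≠ 0 → ∀ x, x ∈ P ∧ form a x = form a u →
        form (M j) x = form (M j) u := by
      intro j hj x hx
      have h1 : ∑ j, (lam j : ℝ) * (form (M j) u - form (M j) x) = 0 := by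
        simp only [mul_sub, Finset.sum_sub_distrib, ← hform, hx.2, sub_self]
      rw [Finset.sum_eq_zero_iff_of_nonneg (fun j _ => mul_nonneg (by exact_mod_cast hl0 j)
        (sub_nonneg.mpr (hval j x hx.1)))] at h1
      have h2 := h1 j (Finset.mem_univ j)
      rcases mul_eq_zero.mp h2 with h3 | h3
      · exact absurd (by exact_mod_cast h3) hj
      · linarith
    have hone : ∀ i j, lam i ≠ 0 → lam j ≠ 0 → i = j := by
      intro i j hi hj
      by_contra hij
      have h1 := span_le_ker _ (form (M i)) _ (hface i hi)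
      have h2 := span_le_ker _ (form (M j)) _ (hface j hj)
      have h3 : vectorSpan ℝ {x | x ∈ P ∧ form a x = form a u} < LinearMap.ker (form (M i)) := by
        refine lt_of_le_of_ne h1 (fun h => ?_)
        have h4 : col N j ∈ LinearMap.ker (form (M i)) := by
          rw [LinearMap.mem_ker, hcol, if_neg hij]
        rw [← h] at h4
        have h5 := h2 h4
        rw [LinearMap.mem_ker, hcol, if_pos rfl] at h5
        exact one_ne_zero h5
      have h4 := Submodule.finrank_lt_finrank_of_lt h3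
      have h5 := ker_rank _ (hne i)
      omega
    have hex : ∃ i, lam i ≠ 0 := by
      by_contra hc
      push Not at hc
      have : Finset.univ.gcd a = 0 := by
        rw [Finset.gcd_eq_zero_iff]
        intro k _
        rw [ha k]
        simp [hc]
      rw [this] at hg
      exact zero_ne_one hg
    obtain ⟨i, hi⟩ := hex
    have ha' : ∀ k, a k = lam i * M i k := by
      intro k
      rw [ha k, Finset.sum_eq_single i]
      · intro j _ hj
        by_cases h0 : lam j = 0
        · rw [h0, zero_mul]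
        · exact absurd (hone j i h0 hi) hj
      · simp
    have hd : lam i ∣ 1 := by
      rw [← hg]
      exact Finset.dvd_gcd (fun k _ => ⟨M i k, ha' k⟩)
    have h1 : lam i = 1 := Int.eq_one_of_dvd_one (hl0 i) hd
    refine ⟨i, ?_⟩
    funext k
    rw [ha' k, h1, one_mul]

theorem abs_det_of_mul {M N : Matrix (Fin n) (Fin n) ℤ} (h : M * N = 1) : |M.det| = 1 := by
  have h1 : M.det * N.det = 1 := by rw [← Matrix.det_mul, h, Matrix.det_one]
  exact Int.isUnit_iff_abs_eq.mp (IsUnit.of_mul_eq_one _ h1)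

end Pool.Agent.H911Z.UV
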