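import Mathlib
import Pool.Agent.H911Z.UV.Cone

namespace Pool.Agent.H911Z.UV

variable {n : ℕ}

/-- The box cut by one half-space. -/
def cut (d : Fin n → ℝ) (s : ℝ) : Set (Fin n → ℝ) :=
  {x | (∀ j, 0 ≤ x j ∧ x j ≤ d j) ∧ ∑ j, x j ≤ s}

def Good (P : Set (Fin n → ℝ)) : Prop :=
  ∀ u ∈ Set.extremePoints ℝ P, ∃ M : Matrix (Fin n) (Fin n) ℤ,
    Set.range (fun i => M i) = facetNormals P u ∧ |M.det| = 1

theorem extreme_dir {P : Set (Fin n → ℝ)} {u y : Fin n → ℝ} (hu : u ∈ Set.extremePoints ℝ P)
    (h1 : u + y ∈ P) (h2 : u - y ∈ P) : y = 0 := by
  have h := (mem_extremePoints.mp hu).2 _ h1 _ h2 ⟨1 / 2, 1 / 2, by norm_num, by norm_num,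
    by norm_num, by funext j; simp; ring⟩
  simpa using h.1

theorem form_single (c : ℤ) (j : Fin n) (x : Fin n → ℝ) :
    form (Pi.single j c) x = c * x j := by
  rw [form_apply, Finset.sum_eq_single j]
  · simp
  · intro k _ hk; simp [hk]
  · simp

theorem form_one (x : Fin n → ℝ) : form (fun _ => 1) x = ∑ j, x j := by
  simp [form_apply]

theorem sum_add_single (u : Fin n → ℝ) (k : Fin n) (c : ℝ) :
    ∑ j, (u + Pi.single k c : Fin n → ℝ) j = ∑ j, u j + c := by
  simp [Finset.sum_add_distrib]

theorem move_one {d : Fin n → ℝ} {s : ℝ} {u : Fin n → ℝ} (hu : u ∈ cut d s) (k : Fin n) (c : ℝ)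
    (h1 : 0 ≤ u k + c) (h2 : u k + c ≤ d k) (h3 : ∑ j, u j + c ≤ s) :
    u + Pi.single k c ∈ cut d s := by
  refine ⟨fun j => ?_, by rw [sum_add_single]; exact h3⟩
  by_cases hj : j = k
  · subst hj; simpa using ⟨h1, h2⟩
  · simpa [hj] using hu.1 j

theorem move_two {d : Fin n → ℝ} {s : ℝ} {u : Fin n → ℝ} (hu : u ∈ cut d s) (k l : Fin n)
    (hkl : k ≠ l) (c : ℝ)
    (h1 : 0 ≤ u k + c) (h2 : u k + c ≤ d k) (h3 : 0 ≤ u l - c) (h4 : u l - c ≤ d l) :
    u + Pi.single k c + Pi.single l (-c) ∈ cut d s := by
  refine ⟨fun j => ?_, by rw [sum_add_single, sum_add_single]; linarith [hu.2]⟩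
  by_cases hj : j = k
  · subst hj; simpa [hkl] using ⟨h1, h2⟩
  · by_cases hl : j = l
    · subst hl
      simp only [Pi.add_apply, Pi.single_eq_same, Pi.single_eq_of_ne hj]
      constructor <;> linarith
    · simpa [hj, hl] using hu.1 j

theorem good_of_no_subset (d : Fin n → ℝ) (s : ℝ) (hd : ∀ j, 0 < d j)
    (hno : ∀ S : Finset (Fin n), ∑ j ∈ S, d j ≠ s) : Good (cut d s) := by
  classical
  intro u hu
  have huP : u ∈ cut d s := hu.1
  let e : Fin n → ℤ := fun j => if u j = 0 then -1 else 1
  have he2 : ∀ j, e j * e j = 1 := by
    intro j; simp only [e]; split_ifs <;> norm_num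
  have hvalid : ∀ j, (u j = 0 ∨ u j = d j) → ∀ x ∈ cut d s,
      form (Pi.single j (e j)) x ≤ form (Pi.single j (e j)) u := by
    intro j hj x hx
    rw [form_single, form_single]
    have := hx.1 j
    simp only [e]
    split_ifs with h
    · rw [h]; push_cast; linarith
    · rcases hj with h' | h'
      · exact absurd h' h
      · rw [h']; push_cast; linarith
  rcases lt_or_eq_of_le huP.2 with hlt | heq
  · have hall : ∀ j, u j = 0 ∨ u j = d j := by
      intro k
      by_contra hc
      push Not at hc
      have a1 : 0 < u k := lt_of_le_of_ne (huP.1 k).1 (Ne.symm hc.1)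
      have a2 : u k < d k := lt_of_le_of_ne (huP.1 k).2 hc.2
      set c := min (min (u k) (d k - u k)) (s - ∑ j, u j) with hcdef
      have c0 : 0 < c := lt_min (lt_min a1 (by linarith)) (by linarith)
      have c1 : c ≤ u k := (min_le_left _ _).trans (min_le_left _ _)
      have c2 : c ≤ d k - u k := (min_le_left _ _).trans (min_le_right _ _)
      have c3 : c ≤ s - ∑ j, u j := min_le_right _ _
      have h1 := move_one huP k c (by linarith) (by linarith) (by linarith)
      have h2 := move_one huP k (-c) (by linarith) (by linarith) (by linarith)
      have h3 := extreme_dir hu h1 (by rw [sub_eq_add_neg, ← Pi.single_neg]; exact h2)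
      have h4 := congrFun h3 k
      simp at h4
      linarith
    have hMM : Matrix.diagonal e * Matrix.diagonal e = 1 := by
      rw [Matrix.diagonal_mul_diagonal, ← Matrix.diagonal_one]
      congr 1
      funext j
      exact he2 j
    have hrow : ∀ i, Matrix.diagonal e i = Pi.single i (e i) := by
      intro i; funext j
      rw [Matrix.diagonal_apply, Pi.single_apply]
      by_cases h : i = j
      · simp [h]
      · simp [h, Ne.symm h]
    refine ⟨Matrix.diagonal e, local_cone _ u huP _ _ hMM ?_ ?_, abs_det_of_mul hMM⟩
    · intro i
      rw [hrow]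
      exact hvalid i (hall i)
    · intro j
      set c := min (d j) (s - ∑ j, u j) with hcdef
      have c0 : 0 < c := lt_min (hd j) (by linarith)
      have c1 : c ≤ d j := min_le_left _ _
      have c3 : c ≤ s - ∑ j, u j := min_le_right _ _
      refine ⟨c, c0, ?_⟩
      have : (-c) • col (Matrix.diagonal e) j = Pi.single j (-c * e j) := by
        funext k
        by_cases h : k = j
        · subst h; simp [col]
        · simp [col, h]
      rw [this]
      by_cases h0 : u j = 0
      · have : (e j : ℝ) = -1 := by simp [e, h0]
        rw [this]
        exact move_one huP j _ (by linarith) (by linarith) (by linarith)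
      · have : (e j : ℝ) = 1 := by simp [e, h0]
        rw [this]
        have h1 : u j = d j := (hall j).resolve_left h0
        exact move_one huP j _ (by linarith) (by linarith) (by linarith)
  · have hex : ∃ k, ¬ (u k = 0 ∨ u k = d k) := by
      by_contra hc
      push Not at hc
      apply hno (Finset.univ.filter (fun j => u j ≠ 0))
      rw [← heq, Finset.sum_filter]
      refine Finset.sum_congr rfl (fun j _ => ?_)
      split_ifs with h
      · exact ((hc j).resolve_left h).symm
      · push Not at h; exact h.symm
    obtain ⟨k, hk⟩ := hex
    push Not at hk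
    have a1 : 0 < u k := lt_of_le_of_ne (huP.1 k).1 (Ne.symm hk.1)
    have a2 : u k < d k := lt_of_le_of_ne (huP.1 k).2 hk.2
    have hall : ∀ j, j ≠ k → u j = 0 ∨ u j = d j := by
      intro l hl
      by_contra hc
      push Not at hc
      have b1 : 0 < u l := lt_of_le_of_ne (huP.1 l).1 (Ne.symm hc.1)
      have b2 : u l < d l := lt_of_le_of_ne (huP.1 l).2 hc.2
      set c := min (min (u k) (d k - u k)) (min (u l) (d l - u l)) with hcdef
      have c0 : 0 < c := lt_min (lt_min a1 (by linarith)) (lt_min b1 (by linarith))
      have c1 : c ≤ u k := (min_le_left _ _).trans (min_le_left _ _)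
      have c2 : c ≤ d k - u k := (min_le_left _ _).trans (min_le_right _ _)
      have c3 : c ≤ u l := (min_le_right _ _).trans (min_le_left _ _)
      have c4 : c ≤ d l - u l := (min_le_right _ _).trans (min_le_right _ _)
      have h1 := move_two huP k l hl.symm c (by linarith) (by linarith) (by linarith) (by linarith)
      have h2 := move_two huP k l hl.symm (-c) (by linarith) (by linarith) (by linarith)
        (by linarith)
      rw [add_assoc] at h1
      have h3 := extreme_dir hu h1 (by
        rw [sub_eq_add_neg, neg_add, ← Pi.single_neg, ← Pi.single_neg, ← add_assoc]; exact h2)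
      have h4 := congrFun h3 k
      simp [hl.symm] at h4
      linarith
    let M : Matrix (Fin n) (Fin n) ℤ := fun i j => if i = k then 1 else if j = i then e i else 0
    let N : Matrix (Fin n) (Fin n) ℤ := fun i j =>
      if j = k then (if i = k then 1 else 0) else if i = j then e j else if i = k then -e j else 0
    have hrow : ∀ i, i ≠ k → M i = Pi.single i (e i) := by
      intro i hi; funext j
      simp only [M, if_neg hi, Pi.single_apply]
    have hrowk : M k = fun _ => 1 := by
      funext j; simp [M]
    have hcolk : col N k = Pi.single k 1 := by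
      funext i
      by_cases h : i = k <;> simp [col, N, h]
    have hcolj : ∀ j, j ≠ k → col N j = Pi.single j (e j : ℝ) + Pi.single k (-(e j : ℝ)) := by
      intro j hj
      funext i
      by_cases h : i = j
      · subst h; simp [col, N, hj]
      · by_cases h' : i = k
        · subst h'; simp [col, N, hj, h]
        · simp [col, N, hj, h, h']
    have hMN : M * N = 1 := by
      ext i j
      rw [Matrix.mul_apply, Matrix.one_apply]
      have key : ((∑ l, M i l * N l j : ℤ) : ℝ) = ((if i = j then 1 else 0 : ℤ) : ℝ) := by
        rw [← form_col]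
        by_cases hi : i = k
        · subst hi
          rw [hrowk, form_one]
          by_cases hj : j = i
          · subst hj; rw [hcolk]; simp
          · rw [hcolj j hj]; simp [Finset.sum_add_distrib, Ne.symm hj]
        · rw [hrow i hi, form_single]
          by_cases hj : j = k
          · subst hj; rw [hcolk]; simp [hi]
          · rw [hcolj j hj]
            by_cases hij : i = j
            · subst hij
              have : ((e i : ℝ)) * e i = 1 := by exact_mod_cast he2 i
              simp [hi, this]
            · simp [hi, hij]
      exact_mod_cast key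
    refine ⟨M, local_cone _ u huP _ _ hMN ?_ ?_, abs_det_of_mul hMN⟩
    · intro i
      by_cases hi : i = k
      · subst hi
        intro x hx
        rw [hrowk, form_one, form_one, heq]
        exact hx.2
      · rw [hrow i hi]
        exact hvalid i (hall i hi)
    · intro j
      by_cases hj : j = k
      · subst hj
        refine ⟨u j, a1, ?_⟩
        rw [hcolk, ← Pi.single_smul, smul_eq_mul, mul_one]
        exact move_one huP j _ (by linarith) (by linarith) (by linarith)
      · set c := min (d j) (min (u k) (d k - u k)) with hcdef
        have c0 : 0 < c := lt_min (hd j) (lt_min a1 (by linarith))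
        have c1 : c ≤ d j := min_le_left _ _
        have c2 : c ≤ u k := (min_le_right _ _).trans (min_le_left _ _)
        have c3 : c ≤ d k - u k := (min_le_right _ _).trans (min_le_right _ _)
        refine ⟨c, c0, ?_⟩
        rw [hcolj j hj, smul_add, ← Pi.single_smul, ← Pi.single_smul, smul_eq_mul, smul_eq_mul,
          ← add_assoc, mul_neg]
        by_cases h0 : u j = 0
        · have : (e j : ℝ) = -1 := by simp [e, h0]
          rw [this]
          exact move_two huP j k hj _ (by linarith) (by linarith) (by linarith) (by linarith)
        · have : (e j : ℝ) = 1 := by simp [e, h0]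
          rw [this]
          have h1 : u j = d j := (hall j hj).resolve_left h0
          exact move_two huP j k hj _ (by linarith) (by linarith) (by linarith) (by linarith)

theorem not_good_of_subset (d : Fin n → ℝ) (s : ℝ) (hd : ∀ j, 0 < d j ∧ d j < s)
    (hs : s < ∑ j, d j) (hs0 : 0 ≤ s) (S : Finset (Fin n)) (hS : ∑ j ∈ S, d j = s) :
    ¬ Good (cut d s) := by
  classical
  intro hG
  let u : Fin n → ℝ := fun j => if j ∈ S then d j else 0
  have husum : ∑ j, u j = s := by
    rw [← hS]
    simp [u]
  have huP : u ∈ cut d s := by
    refine ⟨fun j => ?_, husum.le⟩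
    have := (hd j).1
    simp only [u]
    split_ifs <;> constructor <;> linarith
  have hext : u ∈ Set.extremePoints ℝ (cut d s) := by
    rw [mem_extremePoints]
    refine ⟨huP, ?_⟩
    rintro x hx y hy ⟨a, b, ha, hb, hab, h⟩
    have key : ∀ j, x j = u j ∧ y j = u j := by
      intro j
      have h1 := congrFun h j
      simp only [Pi.add_apply, Pi.smul_apply, smul_eq_mul] at h1
      have h2 := hx.1 j
      have h3 := hy.1 j
      simp only [u] at h1 ⊢
      split_ifs at h1 ⊢
      · have e1 : a * (d j - x j) + b * (d j - y j) = 0 := by
          linear_combination (d j) * hab - h1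
        have p1 := mul_nonneg ha.le (sub_nonneg.mpr h2.2)
        have p2 := mul_nonneg hb.le (sub_nonneg.mpr h3.2)
        have q1 : a * (d j - x j) = 0 := by linarith
        have q2 : b * (d j - y j) = 0 := by linarith
        have r1 := (mul_eq_zero.mp q1).resolve_left ha.ne'
        have r2 := (mul_eq_zero.mp q2).resolve_left hb.ne'
        constructor <;> linarith
      · have p1 := mul_nonneg ha.le h2.1
        have p2 := mul_nonneg hb.le h3.1
        have q1 : a * x j = 0 := by linarith
        have q2 : b * y j = 0 := by linarith
        exact ⟨(mul_eq_zero.mp q1).resolve_left ha.ne', (mul_eq_zero.mp q2).resolve_left hb.ne'⟩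
    exact ⟨funext fun j => (key j).1, funext fun j => (key j).2⟩
  obtain ⟨M, hM, _⟩ := hG u hext
  have hn2 : ∀ j : Fin n, ∃ k, k ≠ j := by
    intro j
    by_contra hc
    push Not at hc
    rw [Finset.sum_eq_single j (fun k _ hk => absurd (hc k) hk) (by simp)] at hs
    linarith [(hd j).2]
  have hn0 : ∃ k : Fin n, True := by
    by_contra hc
    rw [Finset.sum_eq_zero (fun k _ => absurd ⟨k, trivial⟩ hc)] at hs
    linarith
  obtain ⟨k0, -⟩ := hn0
  let e : Fin n → ℤ := fun j => if j ∈ S then 1 else -1
  have he : ∀ j, e j * e j = 1 := by
    intro j; simp only [e]; split_ifs <;> norm_num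
  have he0 : ∀ j, (e j : ℝ) ≠ 0 := by
    intro j; simp only [e]; split_ifs <;> norm_num
  have hzero : (0 : Fin n → ℝ) ∈ cut d s := ⟨fun j => ⟨le_rfl, (hd j).1.le⟩, by simpa using hs0⟩
  have hf1 : ∀ j, Pi.single j (e j) ∈ facetNormals (cut d s) u := by
    intro j
    rw [mem_facetNormals]
    refine ⟨gcd_one_of_sum _ (Pi.single j (e j)) ?_, ?_, ?_⟩
    · rw [Finset.sum_eq_single j]
      · simpa using he j
      · intro k _ hk; simp [hk]
      · simp
    · intro x hx
      rw [form_single, form_single]
      have := hx.1 j
      simp only [e, u]
      split_ifs <;> push_cast <;> linarith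
    · refine face_rank _ (form (Pi.single j (e j))) ?_ _ (fun x hx => hx.2) ?_
      · intro h
        have h1 := form_single (e j) j (Pi.single j 1)
        rw [h] at h1
        simp only [LinearMap.zero_apply, Pi.single_eq_same, mul_one] at h1
        exact he0 j h1.symm
      · intro y hy
        rw [form_single] at hy
        have hyj : y j = 0 := (mul_eq_zero.mp hy).resolve_left (he0 j)
        have huj := huP.1 j
        have hp : (0 : Fin n → ℝ) + Pi.single j (u j) ∈ cut d s :=
          move_one hzero j _ (by simpa using huj.1) (by simpa using huj.2)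
            (by simpa using huj.2.trans (hd j).2.le)
        rw [← Finset.univ_sum_single y]
        refine Submodule.sum_mem _ (fun i _ => ?_)
        by_cases hij : i = j
        · rw [hij, hyj]; simp
        · have : (Pi.single i (y i) : Fin n → ℝ) = y i • Pi.single i 1 := by
            rw [← Pi.single_smul, smul_eq_mul, mul_one]
          rw [this]
          refine Submodule.smul_mem _ _ ?_
          set c := min (d i) (s - d j) with hc
          have c0 : 0 < c := lt_min (hd i).1 (by linarith [(hd j).2])
          have c1 : c ≤ d i := min_le_left _ _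
          have c2 : c ≤ s - d j := min_le_right _ _
          refine dir_mem (p := 0 + Pi.single j (u j)) (δ := c) c0.ne' ⟨hp, ?_⟩ ⟨?_, ?_⟩
          · rw [form_single, form_single]; simp
          · rw [← Pi.single_smul, smul_eq_mul, mul_one]
            refine move_one hp i c (by simp [hij, c0.le]) (by simp [hij, c1]) ?_
            rw [sum_add_single]
            simp only [Pi.zero_apply, Finset.sum_const_zero, zero_add]
            linarith [huj.2]
          · rw [form_single, form_single]; simp [Ne.symm hij]
  have hf2 : (fun _ => 1) ∈ facetNormals (cut d s) u := by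
    rw [mem_facetNormals]
    refine ⟨gcd_one_of_sum _ (Pi.single k0 1) (by simp), ?_, ?_⟩
    · intro x hx
      rw [form_one, form_one, husum]
      exact hx.2
    · refine face_rank _ (form (fun _ => 1)) ?_ _ (fun x hx => hx.2) ?_
      · intro h
        have h1 := form_one (Pi.single k0 (1 : ℝ) : Fin n → ℝ)
        rw [h] at h1
        simp at h1
      · intro y hy
        rw [form_one] at hy
        have hD : 0 < ∑ j, d j := by linarith
        have hspos : 0 < s := by linarith [(hd k0).1, (hd k0).2]
        set θ := s / ∑ j, d j with hθ
        have θ0 : 0 < θ := div_pos hspos hD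
        have θ1 : θ < 1 := (div_lt_one hD).mpr hs
        let p : Fin n → ℝ := fun j => θ * d j
        have hps : ∑ j, p j = s := by
          simp only [p]
          rw [← Finset.mul_sum, hθ, div_mul_cancel₀ _ hD.ne']
        have hp0 : ∀ j, 0 < p j := fun j => mul_pos θ0 (hd j).1
        have hp1 : ∀ j, p j < d j := fun j => by
          have := (hd j).1
          simp only [p]
          nlinarith
        have hp : p ∈ cut d s := ⟨fun j => ⟨(hp0 j).le, (hp1 j).le⟩, hps.le⟩
        have hdec : y = ∑ i, y i • ((Pi.single i 1 : Fin n → ℝ) + Pi.single k0 (-1)) := by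
          simp only [smul_add, Finset.sum_add_distrib, ← Finset.sum_smul, hy, zero_smul, add_zero,
            ← Pi.single_smul, smul_eq_mul, mul_one]
          rw [Finset.univ_sum_single]
          funext j
          by_cases h : j = k0
          · subst h; simp [hy]
          · simp [h]
        rw [hdec]
        refine Submodule.sum_mem _ (fun i _ => Submodule.smul_mem _ _ ?_)
        by_cases hi : i = k0
        · rw [hi, ← Pi.single_add]; simp
        · set c := min (d i - p i) (p k0) with hc
          have c0 : 0 < c := lt_min (by linarith [hp1 i]) (hp0 k0)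
          have c1 : c ≤ d i - p i := min_le_left _ _
          have c2 : c ≤ p k0 := min_le_right _ _
          refine dir_mem (p := p) (δ := c) c0.ne' ⟨hp, ?_⟩ ⟨?_, ?_⟩
          · rw [form_one, form_one, hps, husum]
          · rw [smul_add, ← Pi.single_smul, ← Pi.single_smul, smul_eq_mul, smul_eq_mul, mul_one,
              mul_neg, mul_one, ← add_assoc]
            exact move_two hp i k0 hi c (by linarith [hp0 i]) (by linarith) (by linarith)
              (by linarith [hp1 k0])
          · rw [form_one, form_one, husum, ← hps]
            simp [Finset.sum_add_distrib, ← Finset.mul_sum]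
  let g : Option (Fin n) → (Fin n → ℤ) := fun o =>
    match o with
    | none => fun _ => 1
    | some j => Pi.single j (e j)
  have hg : ∀ o, ∃ i, M i = g o := by
    intro o
    have : g o ∈ Set.range (fun i => M i) := by
      rw [hM]
      cases o with
      | none => exact hf2
      | some j => exact hf1 j
    exact this
  choose h hh using hg
  have hginj : Function.Injective g := by
    intro o o' hoo
    cases o with
    | none =>
      cases o' with
      | none => rfl
      | some j =>
        obtain ⟨k, hk⟩ := hn2 j
        have := congrFun hoo k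
        simp [g, hk] at this
    | some i =>
      cases o' with
      | none =>
        obtain ⟨k, hk⟩ := hn2 i
        have := congrFun hoo k
        simp [g, hk] at this
      | some j =>
        by_contra hne
        have hij : i ≠ j := fun h => hne (by rw [h])
        have h1 := congrFun hoo i
        simp only [g, Pi.single_eq_same, Pi.single_eq_of_ne hij] at h1
        have h2 := he i
        rw [h1] at h2
        simp at h2
  have hinj : Function.Injective h := fun o o' hoo => hginj (by rw [← hh, ← hh, hoo])
  have := Fintype.card_le_of_injective h hinj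
  simp at this

end Pool.Agent.H911Z.UV
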