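import Mathlib
import Pool.Agent.H911Z.UV.Box
import Pool.Agent.H671R2.SubsetSum
import Pool.Agent.NPC.Classes

namespace Pool.Agent.H911Z.UV

open Pool.Agent.NPC Pool.Agent.NPC.R671.SS

def matA (n : ℕ) : Matrix (Fin (n + 1)) (Fin n) Bool := fun i j => decide (i.1 = j.1 ∨ i.1 = n)

def vecB (l : List ℕ) (s : ℕ) : Fin (l.length + 1) → ℚ := fun i => (((l ++ [s]).getD i.1 0 : ℕ) : ℚ)

theorem vecB_castSucc (l : List ℕ) (s : ℕ) (j : Fin l.length) :
    vecB l s j.castSucc = (l[j.1] : ℕ) := by
  simp [vecB, List.getD_eq_getElem?_getD, List.getElem?_append_left j.2]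

theorem vecB_last (l : List ℕ) (s : ℕ) : vecB l s (Fin.last _) = s := by
  simp [vecB, List.getD_eq_getElem?_getD]

theorem poly_eq (l : List ℕ) (s : ℕ) :
    polyhedron (matA l.length) (vecB l s) = cut (fun j : Fin l.length => ((l[j.1] : ℕ) : ℝ)) s := by
  have h1 : ∀ (x : Fin l.length → ℝ) (i : Fin l.length),
      ∑ j, (if matA l.length i.castSucc j = true then x j else 0) = x i := by
    intro x i
    rw [Finset.sum_eq_single i]
    · simp [matA]
    · intro j _ hj
      rw [if_neg]
      simp only [matA, Fin.val_castSucc, decide_eq_true_eq, not_or]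
      exact ⟨fun h => hj (Fin.ext h.symm), i.2.ne⟩
    · simp
  have h2 : ∀ (x : Fin l.length → ℝ),
      ∑ j, (if matA l.length (Fin.last _) j = true then x j else 0) = ∑ j, x j := by
    intro x
    simp [matA]
  ext x
  simp only [polyhedron, cut, Set.mem_ofPred_eq]
  rw [Fin.forall_fin_succ']
  simp only [h1, h2, vecB_castSucc, vecB_last, Rat.cast_natCast]
  constructor
  · rintro ⟨⟨a, b⟩, c⟩; exact ⟨fun j => ⟨c j, a j⟩, b⟩
  · rintro ⟨a, b⟩; exact ⟨⟨fun j => (a j).2, b⟩, fun j => (a j).1⟩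

theorem subsetSum_iff' (l : List ℕ) (s : ℕ) :
    SubsetSum (l, s) ↔ ∃ S : Finset (Fin l.length), ∑ j ∈ S, l[j.1] = s := by
  constructor
  · rintro ⟨t, ht, hs⟩
    obtain ⟨f, hf⟩ := List.sublist_iff_exists_fin_orderEmbedding_get_eq.mp ht
    refine ⟨Finset.univ.image f, ?_⟩
    rw [Finset.sum_image (fun a _ b _ h => f.injective h)]
    simp only at hs
    rw [← hs, ← Fin.sum_univ_getElem]
    exact Finset.sum_congr rfl (fun i _ => (hf i).symm)
  · rintro ⟨S, hS⟩
    refine ⟨((List.finRange l.length).filter (fun j => decide (j ∈ S))).map l.get, ?_, ?_⟩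
    · have := List.Sublist.map l.get
        (List.filter_sublist (p := fun j => decide (j ∈ S)) (l := List.finRange l.length))
      rwa [List.map_get_finRange] at this
    · rw [← List.sum_toFinset _ ((List.nodup_finRange _).filter _)]
      simp only
      rw [← hS]
      congr 1
      ext j
      simp

theorem unimod_iff (x : List ℕ × ℕ) (h : Nice x) :
    Unimodular (matA x.1.length) (vecB x.1 x.2) ↔ ¬ SubsetSum x := by
  obtain ⟨l, s⟩ := x
  obtain ⟨h1, h2⟩ := h
  simp only at h1 h2 ⊢
  have e : Unimodular (matA l.length) (vecB l s) ↔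
      Good (cut (fun j : Fin l.length => ((l[j.1] : ℕ) : ℝ)) s) := by
    rw [← poly_eq]; rfl
  rw [e, subsetSum_iff']
  have hd : ∀ j : Fin l.length, (0 : ℝ) < ((l[j.1] : ℕ) : ℝ) ∧ ((l[j.1] : ℕ) : ℝ) < s := by
    intro j
    have := h1 l[j.1] (List.getElem_mem j.2)
    exact ⟨by exact_mod_cast this.1, by exact_mod_cast this.2⟩
  constructor
  · rintro hG ⟨S, hS⟩
    refine not_good_of_subset _ _ hd ?_ (by positivity) S (by exact_mod_cast hS) hG
    rw [← Fin.sum_univ_getElem] at h2
    exact_mod_cast h2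
  · intro hno
    refine good_of_no_subset _ _ (fun j => (hd j).1) (fun S hS => hno ⟨S, ?_⟩)
    exact_mod_cast hS

def red (x : List ℕ × ℕ) : ℕ × List (List Bool) × List ℚ :=
  (x.1.length, (List.range (x.1.length + 1)).map (fun i => (List.range x.1.length).map
    (fun j => decide (i = j ∨ i = x.1.length))), (x.1 ++ [x.2]).map (fun k => ((k : ℕ) : ℚ)))

theorem natCast_rat {α : Type} [TEnc α] {f : α → ℕ} (hf : Poly f) :
    Poly (fun a => ((f a : ℕ) : ℚ)) :=
  Poly.of_toT ((Poly.toT' (Poly.pair (Poly.natCast_int hf) (NPC.Poly.const (1 : ℕ)))).congr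
    fun a => by
      change toT (((f a : ℕ) : ℤ), (1 : ℕ)) = toT (((f a : ℕ) : ℚ).num, ((f a : ℕ) : ℚ).den)
      rw [Rat.num_natCast, Rat.den_natCast])

theorem red_poly : Poly red := by
  have h1 : UPoly (fun x : List ℕ × ℕ => x.1.length) := UPoly.length (by fun_prop)
  have h2 := h1.range
  have h3 := (h1.add (UPoly.const 1)).range
  unfold red
  refine Poly.pair (by fun_prop) (Poly.pair ?_ ?_)
  · refine NPC.Poly.map (F := fun (x : List ℕ × ℕ) i => (List.range x.1.length).map
      (fun j => decide (i = j ∨ i = x.1.length))) h3 ?_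
    refine NPC.Poly.map (l := fun p : (List ℕ × ℕ) × ℕ => List.range p.1.1.length)
      (F := fun (p : (List ℕ × ℕ) × ℕ) j => decide (p.2 = j ∨ p.2 = p.1.1.length))
      (h2.comp (Poly.fst Poly.id)) ?_
    fun_prop
  · exact NPC.Poly.map (F := fun (_ : List ℕ × ℕ) (k : ℕ) => ((k : ℕ) : ℚ)) (by fun_prop)
      (natCast_rat (Poly.snd Poly.id))

theorem red_eq (x : List ℕ × ℕ) : bits (red x) = enc (matA x.1.length) (vecB x.1 x.2) := by
  unfold enc red
  congr 3
  · apply List.ext_getElem
    · simp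
    · intro i h1 h2
      rw [List.getElem_map, List.getElem_ofFn, List.getElem_range]
      apply List.ext_getElem
      · simp
      · intro j h3 h4
        rw [List.getElem_map, List.getElem_ofFn, List.getElem_range]
        rfl
  · apply List.ext_getElem
    · simp
    · intro i h1 h2
      have h3 : i < (x.1 ++ [x.2]).length := by simpa using h1
      simp only [List.getElem_map, List.getElem_ofFn, vecB]
      rw [List.getD_eq_getElem _ _ h3]

theorem hard (L : Set (List Bool)) (hL : InCoNP L) :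
    ∃ f : List Bool → List Bool, PolyTime f ∧ ∀ x, ∃ (m n : ℕ) (A : Matrix (Fin m) (Fin n) Bool)
      (b : Fin m → ℚ), (∀ i, 0 < b i) ∧ f x = enc A b ∧ (x ∈ L ↔ Unimodular A b) := by
  obtain ⟨g, hg, hn, hgL⟩ := hardPr_SubsetSum _ hL
  refine ⟨fun x => bits (red (g x)), PC.toPolyTime_bits red_poly g hg, fun x => ?_⟩
  refine ⟨_, _, matA (g x).1.length, vecB (g x).1 (g x).2, ?_, red_eq _, ?_⟩
  · intro i
    obtain ⟨h1, h2⟩ := hn x
    rcases Fin.eq_castSucc_or_eq_last i with ⟨j, rfl⟩ | rfl
    · rw [vecB_castSucc]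
      exact_mod_cast (h1 _ (List.getElem_mem j.2)).1
    · rw [vecB_last]
      cases hl : (g x).1 with
      | nil => rw [hl] at h2; simp at h2
      | cons a t =>
        have := h1 a (by rw [hl]; simp)
        exact_mod_cast lt_trans this.1 this.2
  · rw [unimod_iff _ (hn x), ← hgL x, Set.mem_compl_iff, not_not]

end Pool.Agent.H911Z.UV
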